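import Mathlib

set_option autoImplicit false

open Set Topology

namespace Pool.Agent.Q291.LC

/-- the standard `n`-simplex -/
abbrev Spx (n : ℕ) : Type := stdSimplex ℝ (Fin (n + 1))

/-- the inclusion of the `i`-th face: insert a zero in the place `i` -/
noncomputable def inc {n : ℕ} (i : Fin (n + 2)) : C(Spx n, Spx (n + 1)) where
  toFun t := ⟨i.insertNth (0 : ℝ) t.1, by
    refine ⟨fun j => ?_, ?_⟩
    · refine Fin.succAboveCases i ?_ (fun k => ?_) j
      · simp
      · simpa using t.2.1 k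
    · rw [Fin.sum_univ_succAbove _ i]
      simpa using t.2.2⟩
  continuous_toFun := by
    refine Continuous.subtype_mk ?_ _
    refine continuous_pi fun j => ?_
    refine Fin.succAboveCases i ?_ (fun k => ?_) j
    · simpa using continuous_const
    · simp only [Fin.insertNth_apply_succAbove]
      exact (continuous_apply k).comp continuous_subtype_val

/-- singular `n`-chains with integer coefficients -/
abbrev Chain (n : ℕ) (X : Type) [TopologicalSpace X] : Type := C(Spx n, X) →₀ ℤ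

/-- the boundary of a singular `(n + 1)`-simplex -/
noncomputable def bdSimplex {n : ℕ} {X : Type} [TopologicalSpace X] (σ : C(Spx (n + 1), X)) : Chain n X :=
  ∑ i : Fin (n + 2), Finsupp.single (σ.comp (inc i)) ((-1) ^ (i : ℕ))

/-- the boundary -/
noncomputable def bd {n : ℕ} {X : Type} [TopologicalSpace X] (c : Chain (n + 1) X) : Chain n X :=
  c.sum fun σ a => a • bdSimplex σ

/-- the chain map of a continuous map -/
noncomputable def push {n : ℕ} {X Y : Type} [TopologicalSpace X] [TopologicalSpace Y] (f : C(X, Y))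
    (c : Chain n X) : Chain n Y :=
  c.sum fun σ a => Finsupp.single (f.comp σ) a

section pathA

variable {X : Type} [TopologicalSpace X]

/-- the singular simplex of a path (reparametrised) -/
noncomputable def sx {p q : X} (γ : Path p q) : C(Spx 1, X) where
  toFun t := γ (projIcc (0 : ℝ) 1 zero_le_one (1 / 2 + (t.1 1 - t.1 0)))
  continuous_toFun := by
    refine γ.continuous.comp (continuous_projIcc.comp ?_)
    have h0 : Continuous fun t : Spx 1 => t.1 0 := (continuous_apply 0).comp continuous_subtype_val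
    have h1 : Continuous fun t : Spx 1 => t.1 1 := (continuous_apply 1).comp continuous_subtype_val
    exact continuous_const.add (h1.sub h0)

theorem sx_apply {p q : X} (γ : Path p q) (t : Spx 1) :
    sx γ t = γ (projIcc (0 : ℝ) 1 zero_le_one (1 / 2 + (t.1 1 - t.1 0))) := rfl

theorem spx0 (t : Spx 0) : t.1 0 = 1 := by
  have := t.2.2
  simpa using this

theorem inc_same {n : ℕ} (i : Fin (n + 2)) (t : Spx n) : (inc i t).1 i = 0 := by
  show Fin.insertNth (α := fun _ => ℝ) i (0 : ℝ) t.1 i = 0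
  simp

theorem inc_succ {n : ℕ} (i : Fin (n + 2)) (t : Spx n) (j : Fin (n + 1)) :
    (inc i t).1 (i.succAbove j) = t.1 j := by
  show Fin.insertNth (α := fun _ => ℝ) i (0 : ℝ) t.1 (i.succAbove j) = t.1 j
  simp

theorem inc_eq {n : ℕ} (i : Fin (n + 2)) (t : Spx n) (j : Fin (n + 1)) (k : Fin (n + 2))
    (h : i.succAbove j = k) : (inc i t).1 k = t.1 j := by
  rw [← h]
  exact inc_succ i t j

theorem inc0_1 (t : Spx 0) : (inc (0 : Fin 2) t).1 0 = 0 ∧ (inc (0 : Fin 2) t).1 1 = 1 :=
  ⟨inc_same _ _, (inc_eq 0 t 0 1 (by decide)).trans (spx0 t)⟩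

theorem inc1_1 (t : Spx 0) : (inc (1 : Fin 2) t).1 0 = 1 ∧ (inc (1 : Fin 2) t).1 1 = 0 :=
  ⟨(inc_eq 1 t 0 0 (by decide)).trans (spx0 t), inc_same _ _⟩

theorem inc2_0 (t : Spx 1) : (inc (0 : Fin 3) t).1 0 = 0 ∧ (inc (0 : Fin 3) t).1 1 = t.1 0 ∧
    (inc (0 : Fin 3) t).1 2 = t.1 1 :=
  ⟨inc_same _ _, inc_eq 0 t 0 1 (by decide), inc_eq 0 t 1 2 (by decide)⟩

theorem inc2_1 (t : Spx 1) : (inc (1 : Fin 3) t).1 0 = t.1 0 ∧ (inc (1 : Fin 3) t).1 1 = 0 ∧
    (inc (1 : Fin 3) t).1 2 = t.1 1 :=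
  ⟨inc_eq 1 t 0 0 (by decide), inc_same _ _, inc_eq 1 t 1 2 (by decide)⟩

theorem inc2_2 (t : Spx 1) : (inc (2 : Fin 3) t).1 0 = t.1 0 ∧ (inc (2 : Fin 3) t).1 1 = t.1 1 ∧
    (inc (2 : Fin 3) t).1 2 = 0 :=
  ⟨inc_eq 2 t 0 0 (by decide), inc_eq 2 t 1 1 (by decide), inc_same _ _⟩

/-- a loop is a cycle -/
theorem cycle {p : X} (γ : Path p p) : bd (Finsupp.single (sx γ) (1 : ℤ)) = 0 := by
  unfold bd
  rw [Finsupp.sum_single_index (by simp), one_smul, bdSimplex, Fin.sum_univ_two]
  have h : (sx γ).comp (inc 0) = (sx γ).comp (inc 1) := by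
    ext t
    simp only [ContinuousMap.comp_apply, sx_apply, (inc0_1 t).1, (inc0_1 t).2, (inc1_1 t).1, (inc1_1 t).2]
    rw [projIcc_of_right_le _ (by norm_num), projIcc_of_le_left _ (by norm_num)]
    exact γ.target.trans γ.source.symm
  rw [h, ← Finsupp.single_add]
  simp

theorem isBoundary [SimplyConnectedSpace X] {p : X} (γ : Path p p) :
    ∃ b : Chain 2 X, bd b = Finsupp.single (sx γ) (1 : ℤ) := by
  obtain ⟨F⟩ := SimplyConnectedSpace.paths_homotopic γ (Path.refl p)
  let u : C(Spx 2, unitInterval) :=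
    ⟨fun t => projIcc (0 : ℝ) 1 zero_le_one (2 * t.1 2), by
      refine continuous_projIcc.comp ?_
      exact continuous_const.mul ((continuous_apply 2).comp continuous_subtype_val)⟩
  let s : C(Spx 2, unitInterval) :=
    ⟨fun t => projIcc (0 : ℝ) 1 zero_le_one (1 / 2 + (t.1 1 - t.1 0)), by
      refine continuous_projIcc.comp ?_
      exact continuous_const.add (((continuous_apply 1).comp continuous_subtype_val).sub
        ((continuous_apply 0).comp continuous_subtype_val))⟩
  let τ : C(Spx 2, X) := ⟨fun t => F (u t, s t), by fun_prop⟩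
  have hτ : ∀ t, τ t = F (projIcc (0 : ℝ) 1 zero_le_one (2 * t.1 2),
      projIcc (0 : ℝ) 1 zero_le_one (1 / 2 + (t.1 1 - t.1 0))) := fun t => rfl
  have f2 : τ.comp (inc 2) = sx γ := by
    ext t
    rw [ContinuousMap.comp_apply, hτ, (inc2_2 t).1, (inc2_2 t).2.1, (inc2_2 t).2.2, sx_apply]
    rw [projIcc_of_le_left zero_le_one (show 2 * (0 : ℝ) ≤ 0 by norm_num)]
    exact F.apply_zero _
  have key : ∀ (r D : ℝ), (r ≤ 1 / 2 → 1 / 2 + D ≤ 0 ∨ 1 ≤ 1 / 2 + D) →
      F (projIcc (0 : ℝ) 1 zero_le_one (2 * r), projIcc (0 : ℝ) 1 zero_le_one (1 / 2 + D)) = p := by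
    intro r D h
    rcases le_total r (1 / 2) with h1 | h1
    · rcases h h1 with h2 | h2
      · rw [projIcc_of_le_left zero_le_one h2]
        exact F.source _
      · rw [projIcc_of_right_le zero_le_one h2]
        exact F.target _
    · rw [projIcc_of_right_le zero_le_one (show 1 ≤ 2 * r by linarith)]
      exact F.apply_one _
  have f1 : ∀ t, τ.comp (inc 1) t = p := by
    intro t
    have hsum : t.1 0 + t.1 1 = 1 := by simpa [Fin.sum_univ_two] using t.2.2
    rw [ContinuousMap.comp_apply, hτ, (inc2_1 t).1, (inc2_1 t).2.1, (inc2_1 t).2.2]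
    exact key _ _ fun h => Or.inl (by linarith)
  have f0 : ∀ t, τ.comp (inc 0) t = p := by
    intro t
    have hsum : t.1 0 + t.1 1 = 1 := by simpa [Fin.sum_univ_two] using t.2.2
    rw [ContinuousMap.comp_apply, hτ, (inc2_0 t).1, (inc2_0 t).2.1, (inc2_0 t).2.2]
    exact key _ _ fun h => Or.inr (by linarith)
  have f01 : τ.comp (inc 0) = τ.comp (inc 1) := by
    ext t
    rw [f0, f1]
  refine ⟨Finsupp.single τ 1, ?_⟩
  unfold bd
  rw [Finsupp.sum_single_index (by simp), one_smul, bdSimplex, Fin.sum_univ_three, f01, f2,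
    ← Finsupp.single_add]
  simp

end pathA

end Pool.Agent.Q291.LC
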