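import Pool.Agent.Q291.LC.Chain

set_option autoImplicit false

open Set Topology Complex

namespace Pool.Agent.Q291.LC

/-- continuous logarithms on simply connected spaces -/
theorem exists_log {X : Type*} [TopologicalSpace X] [SimplyConnectedSpace X]
    [LocallyPathConnectedSpace X] {g : X → ℂ} (hg : Continuous g) (h0 : ∀ x, g x ≠ 0) :
    ∃ k : X → ℂ, Continuous k ∧ ∀ x, exp (k x) = g x := by
  obtain ⟨x₀⟩ : Nonempty X := inferInstance
  obtain ⟨F, ⟨-, hF⟩, -⟩ := Complex.isCoveringMapOn_exp.existsUnique_continuousMap_lifts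
    ⟨g, hg⟩ (exp_log (h0 x₀)) (fun x ↦ h0 x)
  exact ⟨F, F.continuous, fun x ↦ congrFun hF x⟩

theorem exp_const {X : Type*} [TopologicalSpace X] [PreconnectedSpace X] {k : X → ℂ}
    (hk : Continuous k) {c : ℂ} (h : ∀ x, exp (k x) = c) (x y : X) : k x = k y := by
  refine isCoveringMap_exp.const_of_comp hk (fun a a' => ?_) x y
  simp [h]

/-- the point of the 1-simplex with second coordinate `r`, clamped -/
noncomputable def e1 (r : ℝ) : Spx 1 :=
  ⟨![1 - (projIcc (0 : ℝ) 1 zero_le_one r : ℝ), (projIcc (0 : ℝ) 1 zero_le_one r : ℝ)], by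
    refine ⟨fun j => ?_, ?_⟩
    · fin_cases j
      · simpa using (projIcc (0 : ℝ) 1 zero_le_one r).2.2
      · simpa using (projIcc (0 : ℝ) 1 zero_le_one r).2.1
    · simp [Fin.sum_univ_two]⟩

theorem continuous_e1 : Continuous e1 := by
  refine Continuous.subtype_mk ?_ _
  refine continuous_pi fun j => ?_
  have h : Continuous fun r : ℝ => (projIcc (0 : ℝ) 1 zero_le_one r : ℝ) :=
    continuous_subtype_val.comp continuous_projIcc
  fin_cases j
  · exact continuous_const.sub h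
  · exact h

/-- the point of the 2-simplex with coordinates `(1 - a, a (1 - b), a b)`, clamped -/
noncomputable def e2 (q : ℝ × ℝ) : Spx 2 :=
  ⟨![1 - (projIcc (0 : ℝ) 1 zero_le_one q.1 : ℝ),
      (projIcc (0 : ℝ) 1 zero_le_one q.1 : ℝ) * (1 - (projIcc (0 : ℝ) 1 zero_le_one q.2 : ℝ)),
      (projIcc (0 : ℝ) 1 zero_le_one q.1 : ℝ) * (projIcc (0 : ℝ) 1 zero_le_one q.2 : ℝ)], by
    have h1 := (projIcc (0 : ℝ) 1 zero_le_one q.1).2
    have h2 := (projIcc (0 : ℝ) 1 zero_le_one q.2).2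
    refine ⟨fun j => ?_, ?_⟩
    · fin_cases j
      · exact sub_nonneg.2 h1.2
      · exact mul_nonneg h1.1 (sub_nonneg.2 h2.2)
      · exact mul_nonneg h1.1 h2.1
    · simp [Fin.sum_univ_three]
      ring⟩

theorem continuous_e2 : Continuous e2 := by
  refine Continuous.subtype_mk ?_ _
  refine continuous_pi fun j => ?_
  have h1 : Continuous fun q : ℝ × ℝ => (projIcc (0 : ℝ) 1 zero_le_one q.1 : ℝ) :=
    continuous_subtype_val.comp (continuous_projIcc.comp continuous_fst)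
  have h2 : Continuous fun q : ℝ × ℝ => (projIcc (0 : ℝ) 1 zero_le_one q.2 : ℝ) :=
    continuous_subtype_val.comp (continuous_projIcc.comp continuous_snd)
  fin_cases j
  · exact continuous_const.sub h1
  · exact h1.mul (continuous_const.sub h2)
  · exact h1.mul h2

theorem spx2_ext {s t : Spx 2} (h0 : s.1 0 = t.1 0) (h1 : s.1 1 = t.1 1) (h2 : s.1 2 = t.1 2) :
    s = t := by
  apply Subtype.ext
  funext j
  fin_cases j
  · exact h0
  · exact h1
  · exact h2

theorem p1 : (projIcc (0 : ℝ) 1 zero_le_one 1 : ℝ) = 1 := by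
  rw [projIcc_of_right_le zero_le_one le_rfl]

theorem p0 : (projIcc (0 : ℝ) 1 zero_le_one 0 : ℝ) = 0 := by
  rw [projIcc_of_le_left zero_le_one le_rfl]

theorem edge2 (r : ℝ) : inc (2 : Fin 3) (e1 r) = e2 (r, 0) := by
  refine spx2_ext ?_ ?_ ?_
  · rw [(inc2_2 _).1]; simp [e1, e2]
  · rw [(inc2_2 _).2.1]; simp [e1, e2]
  · rw [(inc2_2 _).2.2]; simp [e2]

theorem edge1 (r : ℝ) : inc (1 : Fin 3) (e1 r) = e2 (r, 1) := by
  refine spx2_ext ?_ ?_ ?_
  · rw [(inc2_1 _).1]; simp [e1, e2]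
  · rw [(inc2_1 _).2.1]; simp [e2]
  · rw [(inc2_1 _).2.2]; simp [e1, e2]

theorem edge0 (r : ℝ) : inc (0 : Fin 3) (e1 r) = e2 (1, r) := by
  refine spx2_ext ?_ ?_ ?_
  · rw [(inc2_0 _).1]; simp [e2]
  · rw [(inc2_0 _).2.1]; simp [e1, e2]
  · rw [(inc2_0 _).2.2]; simp [e1, e2]

theorem corner (r : ℝ) : e2 (0, r) = e2 (0, 0) := by
  refine spx2_ext ?_ ?_ ?_ <;> simp [e2]

section

variable {X : Type} [TopologicalSpace X] (ψ : C(X, ℂ)) (h0 : ∀ x, ψ x ≠ 0)

/-- a logarithm along a singular 1-simplex -/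
noncomputable def lg (σ : C(Spx 1, X)) : ℝ → ℂ :=
  Classical.choose (exists_log (X := ℝ) (g := fun r => ψ (σ (e1 r)))
    (ψ.continuous.comp (σ.continuous.comp continuous_e1)) (fun _ => h0 _))

theorem lg_spec (σ : C(Spx 1, X)) : Continuous (lg ψ h0 σ) ∧ ∀ r, exp (lg ψ h0 σ r) = ψ (σ (e1 r)) :=
  Classical.choose_spec (exists_log (X := ℝ) (g := fun r => ψ (σ (e1 r)))
    (ψ.continuous.comp (σ.continuous.comp continuous_e1)) (fun _ => h0 _))

/-- the change of the logarithm -/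
noncomputable def wd (σ : C(Spx 1, X)) : ℂ := lg ψ h0 σ 1 - lg ψ h0 σ 0

theorem wd_eq (σ : C(Spx 1, X)) (L : ℝ → ℂ) (hL : Continuous L)
    (h : ∀ r, exp (L r) = ψ (σ (e1 r))) : wd ψ h0 σ = L 1 - L 0 := by
  obtain ⟨h1, h2⟩ := lg_spec ψ h0 σ
  have h3 := exp_const (k := fun r => lg ψ h0 σ r - L r) (h1.sub hL) (c := 1) (fun r => by
    rw [exp_sub, h2, h, div_self (h0 _)]) 1 0
  have h4 : lg ψ h0 σ 1 - L 1 = lg ψ h0 σ 0 - L 0 := h3
  unfold wd
  linear_combination h4

/-- additive extension -/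
noncomputable def W (c : Chain 1 X) : ℂ := c.sum fun σ a => (a : ℂ) * wd ψ h0 σ

theorem W_single (σ : C(Spx 1, X)) (a : ℤ) : W ψ h0 (Finsupp.single σ a) = a * wd ψ h0 σ := by
  unfold W
  rw [Finsupp.sum_single_index]
  simp

theorem W_add (c d : Chain 1 X) : W ψ h0 (c + d) = W ψ h0 c + W ψ h0 d := by
  unfold W
  rw [Finsupp.sum_add_index']
  · intro σ; simp
  · intro σ a b; push_cast; ring

theorem W_zero : W ψ h0 (0 : Chain 1 X) = 0 := by
  unfold W
  simp

/-- `W` as a homomorphism -/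
noncomputable def Wh : Chain 1 X →+ ℂ where
  toFun := W ψ h0
  map_zero' := W_zero ψ h0
  map_add' := W_add ψ h0

theorem W_simplex (τ : C(Spx 2, X)) : Wh ψ h0 (bdSimplex τ) = 0 := by
  obtain ⟨L, hL, hexp⟩ := exists_log (X := ℝ × ℝ) (g := fun q => ψ (τ (e2 q)))
    (ψ.continuous.comp (τ.continuous.comp continuous_e2)) (fun _ => h0 _)
  have w2 : wd ψ h0 (τ.comp (inc 2)) = L (1, 0) - L (0, 0) :=
    wd_eq ψ h0 _ (fun r => L (r, 0)) (by fun_prop) (fun r => by
      rw [hexp, ContinuousMap.comp_apply, edge2])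
  have w1 : wd ψ h0 (τ.comp (inc 1)) = L (1, 1) - L (0, 1) :=
    wd_eq ψ h0 _ (fun r => L (r, 1)) (by fun_prop) (fun r => by
      rw [hexp, ContinuousMap.comp_apply, edge1])
  have w0 : wd ψ h0 (τ.comp (inc 0)) = L (1, 1) - L (1, 0) :=
    wd_eq ψ h0 _ (fun r => L (1, r)) (by fun_prop) (fun r => by
      rw [hexp, ContinuousMap.comp_apply, edge0])
  have hc : L (0, 1) = L (0, 0) :=
    exp_const (k := fun r : ℝ => L (0, r)) (by fun_prop) (c := ψ (τ (e2 (0, 0)))) (fun r => by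
      rw [hexp, corner]) 1 0
  unfold bdSimplex
  rw [map_sum, Fin.sum_univ_three]
  show W ψ h0 _ + W ψ h0 _ + W ψ h0 _ = 0
  rw [W_single, W_single, W_single, w0, w1, w2]
  simp
  rw [hc]
  ring

theorem W_bd (b : Chain 2 X) : Wh ψ h0 (bd b) = 0 := by
  unfold bd
  rw [Finsupp.sum, map_sum]
  refine Finset.sum_eq_zero fun τ _ => ?_
  rw [map_zsmul, W_simplex, smul_zero]

include h0 in
/-- a loop with winding number one is not a boundary -/
theorem not_boundary {p : X} (γ : Path p p)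
    (hγ : ∀ s : unitInterval, ψ (γ s) = exp (2 * Real.pi * (s : ℝ) * I)) (b : Chain 2 X) :
    bd b ≠ Finsupp.single (sx γ) (1 : ℤ) := by
  intro h
  have h1 := W_bd ψ h0 b
  rw [h] at h1
  have h2 : wd ψ h0 (sx γ) = 2 * Real.pi * I := by
    have hcont : Continuous fun r : ℝ => (projIcc (0 : ℝ) 1 zero_le_one
        (1 / 2 + ((e1 r).1 1 - (e1 r).1 0)) : ℝ) := by
      refine continuous_subtype_val.comp (continuous_projIcc.comp ?_)
      have c0 : Continuous fun r : ℝ => (e1 r).1 0 :=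
        (continuous_apply 0).comp (continuous_subtype_val.comp continuous_e1)
      have c1 : Continuous fun r : ℝ => (e1 r).1 1 :=
        (continuous_apply 1).comp (continuous_subtype_val.comp continuous_e1)
      exact continuous_const.add (c1.sub c0)
    rw [wd_eq ψ h0 _ (fun r => 2 * Real.pi * ((projIcc (0 : ℝ) 1 zero_le_one
        (1 / 2 + ((e1 r).1 1 - (e1 r).1 0)) : ℝ) : ℂ) * I)
      (by
        exact (continuous_const.mul (Complex.continuous_ofReal.comp hcont)).mul continuous_const)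
      (fun r => by rw [sx_apply, hγ])]
    have a1 : (projIcc (0 : ℝ) 1 zero_le_one (1 / 2 + ((e1 1).1 1 - (e1 1).1 0)) : ℝ) = 1 := by
      rw [projIcc_of_right_le]
      simp only [e1, p1]
      norm_num
    have a0 : (projIcc (0 : ℝ) 1 zero_le_one (1 / 2 + ((e1 0).1 1 - (e1 0).1 0)) : ℝ) = 0 := by
      rw [projIcc_of_le_left]
      simp only [e1, p0]
      norm_num
    rw [a1, a0]
    simp
  have h3 : W ψ h0 (Finsupp.single (sx γ) (1 : ℤ)) = 0 := h1
  rw [W_single, h2] at h3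
  simp [Real.pi_ne_zero] at h3

end

end Pool.Agent.Q291.LC
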